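import Pool.Agent.Helper95.PW.Stmts

/-!
# The double commutator of the attraction with the momentum near the nucleus

Row `PIN`: regularise the attraction by `U_s`, whose Laplace operator is minus the Morawetz
kernel, commute twice, bound outside of the ball, let `s` tend to `0`.
-/

set_option autoImplicit false

namespace Pool.Agent.Helper95.PW

open MeasureTheory Filter

noncomputable def pin_q (s : ℝ) (y : R3) : ℝ := y 0 ^ 2 + y 1 ^ 2 + y 2 ^ 2 + s ^ 2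

noncomputable def pin_f (t : ℝ) : ℝ := (Real.sqrt t)⁻¹

noncomputable def pin_V (s t : ℝ) : ℝ := pin_f t + s ^ 2 / 2 * pin_f t ^ 3

noncomputable def pin_A (s t : ℝ) : ℝ := -(1 / 2) * pin_f t ^ 3 - 3 / 4 * s ^ 2 * pin_f t ^ 5

noncomputable def pin_B (s t : ℝ) : ℝ := 3 / 4 * pin_f t ^ 5 + 15 / 8 * s ^ 2 * pin_f t ^ 7

noncomputable def pin_U (s : ℝ) (y : R3) : ℝ := pin_V s (pin_q s y)

lemma pin_fpos {t : ℝ} (h : 0 < t) : 0 < pin_f t := by
  unfold pin_f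
  positivity

lemma pin_f2 {t : ℝ} (h : 0 < t) : pin_f t ^ 2 * t = 1 := by
  unfold pin_f
  rw [inv_pow, Real.sq_sqrt h.le]
  field_simp

lemma pin_qpos {s : ℝ} (h : 0 < s) (y : R3) : 0 < pin_q s y := by
  unfold pin_q
  positivity

lemma pin_hf {t : ℝ} (h : 0 < t) : HasDerivAt pin_f (-(1 / 2) * pin_f t ^ 3) t := by
  have h1 := (Real.hasDerivAt_sqrt h.ne').inv (Real.sqrt_pos.2 h).ne'
  have h2 : -(1 / (2 * Real.sqrt t)) / Real.sqrt t ^ 2 = -(1 / 2) * pin_f t ^ 3 := by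
    unfold pin_f
    have := (Real.sqrt_pos.2 h).ne'
    field_simp
  rw [← h2]
  exact h1

lemma pin_hV (s : ℝ) {t : ℝ} (h : 0 < t) : HasDerivAt (pin_V s) (pin_A s t) t := by
  have h1 := (pin_hf h).add (((pin_hf h).pow 3).const_mul (s ^ 2 / 2))
  have h2 := h1.congr_deriv (g' := pin_A s t) (by unfold pin_A; push_cast; ring)
  exact h2

lemma pin_hA (s : ℝ) {t : ℝ} (h : 0 < t) : HasDerivAt (pin_A s) (pin_B s t) t := by
  have h1 := (((pin_hf h).pow 3).const_mul (-(1 / 2) : ℝ)).sub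
    (((pin_hf h).pow 5).const_mul (3 / 4 * s ^ 2))
  have h2 := h1.congr_deriv (g' := pin_B s t) (by unfold pin_B; push_cast; ring)
  exact h2

lemma pin_hq (s : ℝ) (y : R3) : HasFDerivAt (pin_q s)
    (∑ j, (2 * y j) • (ContinuousLinearMap.proj j : R3 →L[ℝ] ℝ)) y := by
  have h1 := ((((hasFDerivAt_apply (𝕜 := ℝ) (0 : Fin 3) y).pow 2).add
    ((hasFDerivAt_apply (𝕜 := ℝ) (1 : Fin 3) y).pow 2)).add
    ((hasFDerivAt_apply (𝕜 := ℝ) (2 : Fin 3) y).pow 2)).add_const (s ^ 2)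
  have h2 := h1.congr_fderiv (g' := ∑ j, (2 * y j) • (ContinuousLinearMap.proj j : R3 →L[ℝ] ℝ))
    (by ext z; simp [Fin.sum_univ_three])
  exact h2

lemma pin_pdq {s : ℝ} (F : ℝ → ℝ) (F' : ℝ) (i : Fin 3) (y : R3)
    (hF : HasDerivAt F F' (pin_q s y)) : pd i (fun z => F (pin_q s z)) y = F' * (2 * y i) := by
  have h := hF.comp_hasFDerivAt y (pin_hq s y)
  have h1 := h.fderiv
  unfold pd
  have h2 : (F ∘ pin_q s) = fun z => F (pin_q s z) := rfl
  rw [h2] at h1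
  rw [h1]
  simp [Pi.single_apply, Fin.sum_univ_three]
  fin_cases i <;> simp

lemma pin_pdU {s : ℝ} (hs : 0 < s) (i : Fin 3) :
    pd i (pin_U s) = fun y => pin_A s (pin_q s y) * (2 * y i) := by
  funext y
  exact pin_pdq (pin_V s) _ i y (pin_hV s (pin_qpos hs y))

lemma pin_smq (s : ℝ) : ContDiff ℝ (⊤ : ℕ∞) (pin_q s) := by
  unfold pin_q
  fun_prop

lemma pin_smf {s : ℝ} (hs : 0 < s) : ContDiff ℝ (⊤ : ℕ∞) (fun y => pin_f (pin_q s y)) := by
  unfold pin_f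
  exact ((pin_smq s).sqrt (fun y => (pin_qpos hs y).ne')).inv
    (fun y => (Real.sqrt_pos.2 (pin_qpos hs y)).ne')

lemma pin_smU {s : ℝ} (hs : 0 < s) : ContDiff ℝ (⊤ : ℕ∞) (pin_U s) := by
  have h := pin_smf hs
  have h2 : ContDiff ℝ (⊤ : ℕ∞)
    (fun y => pin_f (pin_q s y) + s ^ 2 / 2 * pin_f (pin_q s y) ^ 3) := by fun_prop
  exact h2

lemma pin_smpd {g : R3 → ℝ} (h : ContDiff ℝ (⊤ : ℕ∞) g) (i : Fin 3) :
    ContDiff ℝ (⊤ : ℕ∞) (pd i g) := by
  have h1 : ContDiff ℝ (⊤ : ℕ∞) (fderiv ℝ g) := h.fderiv_right (by simp)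
  exact h1.clm_apply contDiff_const

lemma pin_pdmul {f g : R3 → ℝ} (hf : ContDiff ℝ (⊤ : ℕ∞) f) (hg : ContDiff ℝ (⊤ : ℕ∞) g)
    (i : Fin 3) (y : R3) : pd i (fun z => f z * g z) y = pd i f y * g y + f y * pd i g y := by
  unfold pd
  rw [fderiv_fun_mul (hf.differentiable (by simp) y) (hg.differentiable (by simp) y)]
  simp
  ring

lemma pin_pdsum {ι : Type*} (t : Finset ι) {f : ι → R3 → ℝ}
    (hf : ∀ j, ContDiff ℝ (⊤ : ℕ∞) (f j))
    (i : Fin 3) (y : R3) : pd i (fun z => ∑ j ∈ t, f j z) y = ∑ j ∈ t, pd i (f j) y := by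
  unfold pd
  rw [fderiv_fun_sum (fun j _ => (hf j).differentiable (by simp) y)]
  simp

lemma pin_pddU {s : ℝ} (hs : 0 < s) (i j : Fin 3) (y : R3) :
    pd j (pd i (pin_U s)) y = pin_B s (pin_q s y) * (2 * y j) * (2 * y i) +
      pin_A s (pin_q s y) * (2 * (if i = j then 1 else 0)) := by
  rw [pin_pdU hs]
  have hA : ContDiff ℝ (⊤ : ℕ∞) (fun y => pin_A s (pin_q s y)) := by
    have h := pin_smf hs
    unfold pin_A
    fun_prop
  have hy : ContDiff ℝ (⊤ : ℕ∞) (fun y : R3 => 2 * y i) := by fun_prop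
  rw [pin_pdmul hA hy, pin_pdq (pin_A s) _ j y (pin_hA s (pin_qpos hs y))]
  congr 2
  unfold pd
  have h1 : HasFDerivAt (fun y : R3 => 2 * y i)
    ((2 : ℝ) • (ContinuousLinearMap.proj i : R3 →L[ℝ] ℝ)) y :=
    (hasFDerivAt_apply (𝕜 := ℝ) i y).const_mul 2
  rw [h1.fderiv]
  simp [Pi.single_apply]

lemma pin_lap {s : ℝ} (hs : 0 < s) (y : R3) :
    ∑ i, pd i (pd i (pin_U s)) y = -(15 / 2 * s ^ 4 * pin_f (pin_q s y) ^ 7) := by
  simp only [pin_pddU hs, Fin.sum_univ_three, if_true]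
  have h := pin_f2 (pin_qpos hs y)
  have h1 : y 0 ^ 2 + y 1 ^ 2 + y 2 ^ 2 = pin_q s y - s ^ 2 := by unfold pin_q; ring
  generalize pin_q s y = t at h h1 ⊢
  have h2 : pin_B s t * (2 * y 0) * (2 * y 0) + pin_A s t * (2 * 1) +
      (pin_B s t * (2 * y 1) * (2 * y 1) + pin_A s t * (2 * 1)) +
      (pin_B s t * (2 * y 2) * (2 * y 2) + pin_A s t * (2 * 1)) =
      4 * pin_B s t * (t - s ^ 2) + 6 * pin_A s t := by rw [← h1]; ring
  rw [h2]
  unfold pin_A pin_B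
  generalize pin_f t = w at h ⊢
  linear_combination (3 * w ^ 3 + 15 / 2 * s ^ 2 * w ^ 5) * h

lemma pin_mor {s : ℝ} (hs : 0 < s) (y : R3) :
    mor s y = 15 / 2 * s ^ 4 * pin_f (pin_q s y) ^ 7 := by
  unfold mor pin_f
  have hq : nr y ^ 2 + s ^ 2 = pin_q s y := by
    unfold nr pin_q
    rw [Real.sq_sqrt (by positivity)]
  rw [hq, inv_pow, div_eq_mul_inv]
  congr 2
  rw [Real.sqrt_eq_rpow, ← Real.rpow_natCast, ← Real.rpow_mul (pin_qpos hs y).le]
  norm_num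

noncomputable def pin_D (g W : R3 → ℝ) (y : R3) : ℝ := ∑ i, pd i g y * pd i W y

lemma pin_smD {g W : R3 → ℝ} (hg : ContDiff ℝ (⊤ : ℕ∞) g) (hW : ContDiff ℝ (⊤ : ℕ∞) W) :
    ContDiff ℝ (⊤ : ℕ∞) (pin_D g W) := by
  unfold pin_D
  exact ContDiff.sum (fun i _ => (pin_smpd hg i).mul (pin_smpd hW i))

lemma pin_DD {g W : R3 → ℝ} (hg : ContDiff ℝ (⊤ : ℕ∞) g) (hW : ContDiff ℝ (⊤ : ℕ∞) W)
    (y : R3) : pin_D g (pin_D g W) y =
      ∑ i, pd i g y * ∑ j, (pd i (pd j g) y * pd j W y + pd j g y * pd i (pd j W) y) := by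
  conv_lhs => unfold pin_D
  refine Finset.sum_congr rfl fun i _ => ?_
  congr 1
  rw [pin_pdsum Finset.univ (f := fun j z => pd j g z * pd j W z)
    (fun j => (pin_smpd hg j).mul (pin_smpd hW j))]
  exact Finset.sum_congr rfl fun j _ => pin_pdmul (pin_smpd hg j) (pin_smpd hW j) i y

lemma pin_nrc : Continuous nr := by
  unfold nr
  fun_prop

lemma pin_inner {g W : R3 → ℝ} {R : ℝ} {m : Fin 3} (h : ∀ y, nr y < R → g y = y m)
    (y : R3) (hy : nr y < R) : pin_D g (pin_D g W) y = pd m (pd m W) y := by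
  have hO : IsOpen {z : R3 | nr z < R} := isOpen_lt pin_nrc continuous_const
  have h1 : ∀ z, nr z < R → ∀ i, pd i g z = if i = m then 1 else 0 := by
    intro z hz i
    have he : g =ᶠ[nhds z] fun z : R3 => z m := by
      filter_upwards [hO.mem_nhds hz] with x hx using h x hx
    unfold pd
    rw [he.fderiv_eq, (hasFDerivAt_apply (𝕜 := ℝ) m z).fderiv]
    simp [Pi.single_apply, eq_comm]
  have h2 : ∀ z, nr z < R → pin_D g W z = pd m W z := by
    intro z hz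
    unfold pin_D
    simp [h1 z hz]
  have h3 : pin_D g W =ᶠ[nhds y] pd m W := by
    filter_upwards [hO.mem_nhds hy] with x hx using h2 x hx
  have h4 : pin_D g (pin_D g W) y = pd m (pin_D g W) y := by
    conv_lhs => unfold pin_D
    simp only [h1 y hy]
    simp only [ite_mul, one_mul, zero_mul, Finset.sum_ite_eq', Finset.mem_univ, if_true]
    rfl
  rw [h4]
  unfold pd at h3 ⊢
  rw [h3.fderiv_eq]

lemma pin_out {g : R3 → ℝ} {K R s : ℝ} (hs : 0 < s) (hR : 0 < R) (h : Scale g K R)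
    (y : R3) (hy : R ≤ nr y) :
    |pin_D g (pin_D g (pin_U s)) y| ≤ 140 * K ^ 2 / R ^ 2 * (1 / nr y) := by
  have hK : 0 ≤ K := le_trans (abs_nonneg _) (h.d1 0 y)
  have ha : 0 < nr y := lt_of_lt_of_le hR hy
  have hq : pin_q s y = nr y ^ 2 + s ^ 2 := by
    unfold nr pin_q
    rw [Real.sq_sqrt (by positivity)]
  have hyj : ∀ j, |y j| ≤ nr y := by
    intro j
    unfold nr
    apply Real.abs_le_sqrt
    fin_cases j <;> simp <;> nlinarith [sq_nonneg (y 0), sq_nonneg (y 1), sq_nonneg (y 2)]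
  have hw := pin_fpos (pin_qpos hs y)
  have hw2 := pin_f2 (pin_qpos hs y)
  have hA1 := pin_pdU hs
  have hB1 := pin_pddU hs
  rw [hq] at hw hw2
  obtain ⟨a, ea⟩ : ∃ a, a = nr y := ⟨_, rfl⟩
  obtain ⟨w, ew⟩ : ∃ w, w = pin_f (nr y ^ 2 + s ^ 2) := ⟨_, rfl⟩
  rw [← ew] at hw hw2
  rw [← ea] at ha hw2 hyj hy ⊢
  have h1 : w * a ≤ 1 := by
    by_contra hc
    push Not at hc
    nlinarith [mul_pos hw ha, sq_nonneg (w * s)]
  have h2 : s ^ 2 * w ^ 2 ≤ 1 := by nlinarith [sq_nonneg (w * a)]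
  obtain ⟨p, ep⟩ : ∃ p, p = 1 / a := ⟨_, rfl⟩
  obtain ⟨ρ, eρ⟩ : ∃ ρ, ρ = 1 / R := ⟨_, rfl⟩
  have hwp : w ≤ p := by rw [ep, le_div_iff₀ ha]; exact h1
  have hpρ : p ≤ ρ := by rw [ep, eρ]; exact one_div_le_one_div_of_le hR hy
  have hp : 0 < p := by rw [ep]; positivity
  have hρ : 0 < ρ := by rw [eρ]; positivity
  have hw3 : 0 < w ^ 3 := by positivity
  have hA0 : |pin_A s (pin_q s y)| ≤ 5 / 4 * w ^ 3 := by
    unfold pin_A
    rw [hq, ← ew, abs_le]
    constructor <;> nlinarith [mul_nonneg hw3.le (sub_nonneg.2 h2), mul_pos hw3 (by positivity : 0 < s ^ 2 * w ^ 2)]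
  have hB0 : |pin_B s (pin_q s y)| ≤ 21 / 8 * w ^ 5 := by
    unfold pin_B
    have hw5 : 0 < w ^ 5 := by positivity
    rw [hq, ← ew, abs_le]
    constructor <;> nlinarith [mul_nonneg hw5.le (sub_nonneg.2 h2), mul_pos hw5 (by positivity : 0 < s ^ 2 * w ^ 2)]
  have hww : w ^ 2 ≤ ρ * p := by nlinarith
  have hU1 : ∀ j, |pd j (pin_U s) y| ≤ 5 / 2 * (ρ * p) := by
    intro j
    rw [hA1 j]
    simp only
    rw [abs_mul, abs_mul, abs_two]
    calc |pin_A s (pin_q s y)| * (2 * |y j|) ≤ (5 / 4 * w ^ 3) * (2 * a) := by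
          apply mul_le_mul hA0 _ (by positivity) (by positivity)
          linarith [hyj j]
      _ = 5 / 2 * w ^ 2 * (w * a) := by ring
      _ ≤ 5 / 2 * w ^ 2 * 1 := by gcongr
      _ ≤ 5 / 2 * (ρ * p) := by linarith
  have hU2 : ∀ i j, |pd j (pd i (pin_U s)) y| ≤ 13 * (ρ ^ 2 * p) := by
    intro i j
    rw [hB1 i j]
    have e1 : |pin_B s (pin_q s y) * (2 * y j) * (2 * y i)| ≤ (21 / 8 * w ^ 5) * (2 * a) * (2 * a) := by
      rw [abs_mul, abs_mul, abs_mul, abs_mul, abs_two]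
      have := hyj i
      have := hyj j
      gcongr
    have e2 : |pin_A s (pin_q s y) * (2 * (if i = j then (1 : ℝ) else 0))| ≤ (5 / 4 * w ^ 3) * 2 := by
      rw [abs_mul]
      apply mul_le_mul hA0 _ (abs_nonneg _) (by positivity)
      split_ifs <;> norm_num
    have e3 : (21 / 8 * w ^ 5) * (2 * a) * (2 * a) ≤ 21 / 2 * w ^ 3 := by
      have : (w * a) ^ 2 ≤ 1 := by
        have := mul_pos hw ha
        nlinarith
      nlinarith [mul_nonneg hw3.le (sub_nonneg.2 this)]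
    have e4 : w ^ 3 ≤ ρ ^ 2 * p := by
      calc w ^ 3 = w * w * w := by ring
        _ ≤ ρ * ρ * p := by
          have : w ≤ ρ := hwp.trans hpρ
          gcongr
        _ = ρ ^ 2 * p := by ring
    calc _ ≤ _ := abs_add_le _ _
      _ ≤ 13 * (ρ ^ 2 * p) := by linarith
  rw [pin_DD h.sm (pin_smU hs)]
  have hKR : K / R = K * ρ := by rw [eρ]; ring
  have hin : ∀ i j, |pd i (pd j g) y * pd j (pin_U s) y + pd j g y * pd i (pd j (pin_U s)) y| ≤
      31 / 2 * (K * (ρ ^ 2 * p)) := by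
    intro i j
    have f1 : |pd i (pd j g) y * pd j (pin_U s) y| ≤ (K * ρ) * (5 / 2 * (ρ * p)) := by
      rw [abs_mul]
      exact mul_le_mul (hKR ▸ h.d2 i j y) (hU1 j) (abs_nonneg _) (by positivity)
    have f2 : |pd j g y * pd i (pd j (pin_U s)) y| ≤ K * (13 * (ρ ^ 2 * p)) := by
      rw [abs_mul]
      exact mul_le_mul (h.d1 j y) (hU2 j i) (abs_nonneg _) hK
    calc _ ≤ _ := abs_add_le _ _
      _ ≤ 31 / 2 * (K * (ρ ^ 2 * p)) := by linarith
  have hi : ∀ i, |pd i g y * ∑ j, (pd i (pd j g) y * pd j (pin_U s) y +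
      pd j g y * pd i (pd j (pin_U s)) y)| ≤ K * (3 * (31 / 2 * (K * (ρ ^ 2 * p)))) := by
    intro i
    rw [abs_mul]
    refine mul_le_mul (h.d1 i y) ?_ (abs_nonneg _) hK
    calc _ ≤ ∑ j, |pd i (pd j g) y * pd j (pin_U s) y + pd j g y * pd i (pd j (pin_U s)) y| :=
          Finset.abs_sum_le_sum_abs _ _
      _ ≤ ∑ j : Fin 3, 31 / 2 * (K * (ρ ^ 2 * p)) := Finset.sum_le_sum fun j _ => hin i j
      _ = _ := by simp
  calc _ ≤ _ := Finset.abs_sum_le_sum_abs _ _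
    _ ≤ ∑ i : Fin 3, K * (3 * (31 / 2 * (K * (ρ ^ 2 * p)))) := Finset.sum_le_sum fun i _ => hi i
    _ = 3 * (K * (3 * (31 / 2 * (K * (ρ ^ 2 * p))))) := by simp
    _ ≤ 140 * K ^ 2 * ρ ^ 2 * p := by
      have : 0 ≤ K ^ 2 * ρ ^ 2 * p := by positivity
      linarith
    _ = 140 * K ^ 2 / R ^ 2 * (1 / a) := by rw [eρ, ep]; field_simp

lemma pin_pt {g : Fin 3 → R3 → ℝ} {K R s : ℝ} (hs : 0 < s) (hR : 0 < R)
    (h : ∀ m, Scale (g m) K R) (hg : ∀ m y, nr y < R → g m y = y m) (y : R3) :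
    -(∑ m, 1 / 2 * pin_D (g m) (pin_D (g m) (pin_U s)) y) ≤
      210 * K ^ 2 / R ^ 2 * (1 / nr y) + 1 / 2 * mor s y := by
  have hm : 0 ≤ mor s y := by
    rw [pin_mor hs]
    have := pin_fpos (pin_qpos hs y)
    positivity
  have h0 : 0 ≤ nr y := Real.sqrt_nonneg _
  by_cases hy : nr y < R
  · have h1 : ∑ m, 1 / 2 * pin_D (g m) (pin_D (g m) (pin_U s)) y = -(1 / 2 * mor s y) := by
      rw [← Finset.mul_sum, Finset.sum_congr rfl (fun m _ => pin_inner (hg m) y hy), pin_lap hs,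
        pin_mor hs]
      ring
    rw [h1, neg_neg]
    have : 0 ≤ 210 * K ^ 2 / R ^ 2 * (1 / nr y) := by positivity
    linarith
  · push Not at hy
    have h1 : ∀ m, -(1 / 2 * pin_D (g m) (pin_D (g m) (pin_U s)) y) ≤
        70 * K ^ 2 / R ^ 2 * (1 / nr y) := by
      intro m
      have h2 := pin_out hs hR (h m) y hy
      have h3 := neg_abs_le (pin_D (g m) (pin_D (g m) (pin_U s)) y)
      have h4 : 70 * K ^ 2 / R ^ 2 * (1 / nr y) = 1 / 2 * (140 * K ^ 2 / R ^ 2 * (1 / nr y)) := by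
        ring
      rw [h4]
      linarith
    rw [← Finset.sum_neg_distrib]
    calc _ ≤ ∑ m : Fin 3, 70 * K ^ 2 / R ^ 2 * (1 / nr y) := Finset.sum_le_sum fun m _ => h1 m
      _ = 210 * K ^ 2 / R ^ 2 * (1 / nr y) := by simp; ring
      _ ≤ _ := by linarith

lemma pin_dvmul {n : ℕ} {S v : Cf n → ℝ} (hS : ContDiff ℝ (⊤ : ℕ∞) S)
    (hv : ContDiff ℝ (⊤ : ℕ∞) v) (k : Fin n) (i : Fin 3) (x : Cf n) :
    dv k i (fun z => S z * v z) x = dv k i S x * v x + S x * dv k i v x := by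
  unfold dv
  rw [fderiv_fun_mul (hS.differentiable (by simp) x) (hv.differentiable (by simp) x)]
  simp
  ring

noncomputable def pin_S {n : ℕ} (W : R3 → ℝ) (x : Cf n) : ℝ := ∑ k, W (x k)

lemma pin_smS {n : ℕ} {W : R3 → ℝ} (hW : ContDiff ℝ (⊤ : ℕ∞) W) :
    ContDiff ℝ (⊤ : ℕ∞) (pin_S (n := n) W) := by
  unfold pin_S
  exact ContDiff.sum fun k _ => hW.comp (contDiff_apply ℝ R3 k)

lemma pin_dvS {n : ℕ} {W : R3 → ℝ} (hW : ContDiff ℝ (⊤ : ℕ∞) W) (k : Fin n) (i : Fin 3)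
    (x : Cf n) : dv k i (pin_S W) x = pd i W (x k) := by
  unfold dv pin_S
  have h : ∀ l, HasFDerivAt (fun x : Cf n => W (x l))
      ((fderiv ℝ W (x l)).comp (ContinuousLinearMap.proj l)) x := fun l =>
    ((hW.differentiable (by simp) (x l)).hasFDerivAt).comp x (hasFDerivAt_apply l x)
  rw [(HasFDerivAt.fun_sum (u := Finset.univ) (fun l _ => h l)).fderiv]
  simp only [sum_apply, ContinuousLinearMap.comp_apply,
    ContinuousLinearMap.proj_apply]
  rw [Finset.sum_eq_single k]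
  · simp [pd]
  · intro l _ hl
    rw [Pi.single_eq_of_ne hl]
    simp
  · simp

lemma pin_com {n : ℕ} {g W : R3 → ℝ} (hW : ContDiff ℝ (⊤ : ℕ∞) W) {v : Cf n → ℝ}
    (hv : ContDiff ℝ (⊤ : ℕ∞) v) (x : Cf n) :
    Pg g (fun z => pin_S W z * v z) x = pin_S W x * Pg g v x + pin_S (pin_D g W) x * v x := by
  unfold Pg
  simp only [pin_dvmul (pin_smS hW) hv, pin_dvS hW]
  have h : pin_S (pin_D g W) x = ∑ k, ∑ i, pd i g (x k) * pd i W (x k) := rfl
  rw [h, Finset.mul_sum, Finset.sum_mul, ← Finset.sum_add_distrib]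
  refine Finset.sum_congr rfl fun k _ => ?_
  simp only [Fin.sum_univ_three]
  ring

lemma pin_ii {n : ℕ} {c v : Cf n → ℝ} (hc : Continuous c) (hv : Continuous v)
    (hs : HasCompactSupport v) : Integrable (fun x => c x * v x) :=
  (hc.mul hv).integrable_of_hasCompactSupport hs.mul_left

lemma pin_id (h1 : ST_PAN) (h2 : ST_STB) {n : ℕ} {g W : R3 → ℝ} (hg : ContDiff ℝ (⊤ : ℕ∞) g)
    (hW : ContDiff ℝ (⊤ : ℕ∞) W) {v : Cf n → ℝ} (hv : ContDiff ℝ (⊤ : ℕ∞) v)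
    (hs : HasCompactSupport v) :
    (∫ x, pin_S W x * Pg g v x ^ 2) + (∫ x, pin_S W x * (Pg g (Pg g v) x * v x)) =
      1 / 2 * ∫ x, pin_S (pin_D g (pin_D g W)) x * v x ^ 2 := by
  have hP : ContDiff ℝ (⊤ : ℕ∞) (Pg g v) ∧ HasCompactSupport (Pg g v) :=
    (h2 n g (fun _ => v) hg (fun _ => ⟨hv, hs⟩)).2.1 (fun _ => 0)
  have hD := pin_smD hg hW
  have a1 := h1 n g (Pg g v) (fun x => pin_S W x * v x) hg hP.1 hP.2 ((pin_smS hW).mul hv)
  have a2 := h1 n g v (fun x => pin_S (pin_D g W) x * v x) hg hv hs ((pin_smS hD).mul hv)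
  simp only [pin_com hW hv] at a1
  simp only [pin_com hD hv] at a2
  obtain ⟨P, eP⟩ : ∃ P, P = Pg g v := ⟨_, rfl⟩
  rw [← eP] at a1 a2 hP ⊢
  have c0 := (pin_smS (n := n) hW).continuous
  have c1 := (pin_smS (n := n) hD).continuous
  have c2 := (pin_smS (n := n) (pin_smD hg hD)).continuous
  have cP := hP.1.continuous
  have cv := hv.continuous
  have i1 : Integrable (fun x => pin_S W x * P x ^ 2) := by
    have := pin_ii (c0.mul cP) cP hP.2
    refine this.congr (ae_of_all _ fun x => ?_)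
    simp only [Pi.mul_apply]
    ring
  have i2 : Integrable (fun x => pin_S (pin_D g W) x * (P x * v x)) := by
    have := pin_ii (c1.mul cP) cv hs
    refine this.congr (ae_of_all _ fun x => ?_)
    simp only [Pi.mul_apply]
    ring
  have i3 : Integrable (fun x => pin_S (pin_D g (pin_D g W)) x * v x ^ 2) := by
    have := pin_ii (c2.mul cv) cv hs
    refine this.congr (ae_of_all _ fun x => ?_)
    simp only [Pi.mul_apply]
    ring
  have b1 : ∫ x, P x * (pin_S W x * P x + pin_S (pin_D g W) x * v x) =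
      (∫ x, pin_S W x * P x ^ 2) + ∫ x, pin_S (pin_D g W) x * (P x * v x) := by
    rw [← integral_add i1 i2]
    refine integral_congr_ae (ae_of_all _ fun x => ?_)
    simp only
    ring
  have b2 : ∫ x, v x * (pin_S (pin_D g W) x * P x + pin_S (pin_D g (pin_D g W)) x * v x) =
      (∫ x, pin_S (pin_D g W) x * (P x * v x)) +
        ∫ x, pin_S (pin_D g (pin_D g W)) x * v x ^ 2 := by
    rw [← integral_add i2 i3]
    refine integral_congr_ae (ae_of_all _ fun x => ?_)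
    simp only
    ring
  have b3 : ∫ x, P x * (pin_S (pin_D g W) x * v x) = ∫ x, pin_S (pin_D g W) x * (P x * v x) := by
    refine integral_congr_ae (ae_of_all _ fun x => ?_)
    simp only
    ring
  have b4 : ∫ x, Pg g P x * (pin_S W x * v x) = ∫ x, pin_S W x * (Pg g P x * v x) := by
    refine integral_congr_ae (ae_of_all _ fun x => ?_)
    simp only
    ring
  rw [b4, b1] at a1
  rw [b3, b2] at a2
  linarith

lemma pin_nrpos {y : R3} (hy : y ≠ 0) : 0 < nr y := by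
  unfold nr
  apply Real.sqrt_pos.2
  by_contra hc
  push Not at hc
  apply hy
  have h0 := sq_nonneg (y 0)
  have h1 := sq_nonneg (y 1)
  have h2 := sq_nonneg (y 2)
  have e0 : y 0 = 0 := by
    apply pow_eq_zero_iff (two_ne_zero) |>.1
    linarith
  have e1 : y 1 = 0 := by
    apply pow_eq_zero_iff (two_ne_zero) |>.1
    linarith
  have e2 : y 2 = 0 := by
    apply pow_eq_zero_iff (two_ne_zero) |>.1
    linarith
  funext i
  fin_cases i
  · exact e0
  · exact e1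
  · exact e2

lemma pin_qn (s : ℝ) (y : R3) : pin_q s y = nr y ^ 2 + s ^ 2 := by
  unfold nr pin_q
  rw [Real.sq_sqrt (by positivity)]

lemma pin_Ub {s : ℝ} (hs : 0 < s) {y : R3} (hy : y ≠ 0) :
    0 ≤ pin_U s y ∧ pin_U s y ≤ 3 / 2 * (1 / nr y) := by
  have ha := pin_nrpos hy
  have hw := pin_fpos (pin_qpos hs y)
  have hw2 := pin_f2 (pin_qpos hs y)
  unfold pin_U pin_V
  rw [pin_qn] at hw hw2 ⊢
  obtain ⟨a, ea⟩ : ∃ a, a = nr y := ⟨_, rfl⟩
  obtain ⟨w, ew⟩ : ∃ w, w = pin_f (nr y ^ 2 + s ^ 2) := ⟨_, rfl⟩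
  rw [← ew] at hw hw2 ⊢
  rw [← ea] at ha hw2 ⊢
  have h1 : w * a ≤ 1 := by
    by_contra hc
    push Not at hc
    nlinarith [mul_pos hw ha, sq_nonneg (w * s)]
  have h2 : s ^ 2 * w ^ 2 ≤ 1 := by nlinarith [sq_nonneg (w * a)]
  have h3 : w ≤ 1 / a := by rw [le_div_iff₀ ha]; exact h1
  refine ⟨by positivity, ?_⟩
  have h4 : w + s ^ 2 / 2 * w ^ 3 = w * (1 + s ^ 2 * w ^ 2 / 2) := by ring
  rw [h4]
  have h5 : w * (1 + s ^ 2 * w ^ 2 / 2) ≤ w * (3 / 2) := by
    apply mul_le_mul_of_nonneg_left _ hw.le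
    linarith
  linarith

lemma pin_Ul {y : R3} (hy : y ≠ 0) :
    Tendsto (fun j : ℕ => pin_U (1 / ((j : ℝ) + 1)) y) atTop (nhds (1 / nr y)) := by
  have ha := pin_nrpos hy
  have c1 : Continuous (fun s : ℝ => Real.sqrt (pin_q s y)) := by
    unfold pin_q
    fun_prop
  have hne : Real.sqrt (pin_q 0 y) ≠ 0 := by
    rw [pin_qn]
    apply ne_of_gt
    apply Real.sqrt_pos.2
    positivity
  have c2 : ContinuousAt (fun s : ℝ => (Real.sqrt (pin_q s y))⁻¹) 0 :=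
    c1.continuousAt.inv₀ hne
  have c3 : ContinuousAt (fun s : ℝ => pin_U s y) 0 := by
    have c4 : ContinuousAt (fun s : ℝ => s ^ 2 / 2) 0 := by fun_prop
    exact c2.add (c4.mul (c2.pow 3))
  have h0 : pin_U 0 y = 1 / nr y := by
    unfold pin_U pin_V pin_f
    rw [pin_qn]
    have : Real.sqrt (nr y ^ 2 + 0 ^ 2) = nr y := by
      rw [show nr y ^ 2 + 0 ^ 2 = nr y ^ 2 by ring]
      exact Real.sqrt_sq ha.le
    rw [this]
    simp
  rw [← h0]
  exact c3.tendsto.comp tendsto_one_div_add_atTop_nhds_zero_nat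

lemma pin_ae (n : ℕ) : ∀ᵐ x : Cf n, ∀ k, x k ≠ 0 := by
  rw [ae_all_iff]
  intro k
  exact Measure.ae_eval_ne (μ := fun _ : Fin n => (volume : Measure R3)) k (0 : R3)

lemma pin_lim (h3 : ST_INT) {n : ℕ} {v w : Cf n → ℝ} (hv : ContDiff ℝ (⊤ : ℕ∞) v)
    (hvs : HasCompactSupport v) (hw : ContDiff ℝ (⊤ : ℕ∞) w) (hws : HasCompactSupport w) :
    Tendsto (fun j : ℕ => ∫ x, pin_S (pin_U (1 / ((j : ℝ) + 1))) x * (v x * w x)) atTop
      (nhds (∫ x, att x * (v x * w x))) := by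
  have hs : ∀ j : ℕ, (0 : ℝ) < 1 / ((j : ℝ) + 1) := fun j => by positivity
  refine tendsto_integral_of_dominated_convergence
    (fun x => 3 / 2 * |att x * (v x * w x)|) (fun j => ?_) ?_ (fun j => ?_) ?_
  · exact (((pin_smS (pin_smU (hs j))).continuous).mul
      (hv.continuous.mul hw.continuous)).aestronglyMeasurable
  · exact (h3 n v w hv hvs hw hws).1.abs.const_mul _
  · filter_upwards [pin_ae n] with x hx
    have b1 : 0 ≤ pin_S (pin_U (1 / ((j : ℝ) + 1))) x :=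
      Finset.sum_nonneg fun k _ => (pin_Ub (hs j) (hx k)).1
    have b2 : pin_S (pin_U (1 / ((j : ℝ) + 1))) x ≤ 3 / 2 * att x := by
      unfold pin_S att
      rw [Finset.mul_sum]
      exact Finset.sum_le_sum fun k _ => (pin_Ub (hs j) (hx k)).2
    have b3 : 0 ≤ att x := by linarith
    rw [Real.norm_eq_abs, abs_mul, abs_mul (att x), abs_of_nonneg b1, abs_of_nonneg b3,
      ← mul_assoc]
    exact mul_le_mul_of_nonneg_right b2 (abs_nonneg _)
  · filter_upwards [pin_ae n] with x hx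
    refine Tendsto.mul_const _ ?_
    unfold pin_S att
    exact tendsto_finsetSum _ fun k _ => pin_Ul (hx k)

theorem st_PIN (h1 : ST_PAN) (h2 : ST_STB) (h3 : ST_INT) (_ : ST_HA1) : ST_PIN := by
  refine ⟨210, by norm_num, ?_⟩
  intro n g K R B u hsc hR hin hu hB
  have hP := fun m => (h2 n (g m) u (hsc m).sm hu).2.1
  have hPP := fun m => (h2 n (g m) (fun s => Pg (g m) (u s)) (hsc m).sm (hP m)).2.1
  have lim : Tendsto (fun j : ℕ =>
      -(∑ m, ((∑ s, ∫ x, pin_S (pin_U (1 / ((j : ℝ) + 1))) x * Pg (g m) (u s) x ^ 2) +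
        ∑ s, ∫ x, pin_S (pin_U (1 / ((j : ℝ) + 1))) x *
          (Pg (g m) (Pg (g m) (u s)) x * u s x)))) atTop
      (nhds (-(∑ m, (one (fun y => 1 / nr y) (fun s => Pg (g m) (u s)) +
        (∑ s, ∫ x, att x * (Pg (g m) (Pg (g m) (u s)) x * u s x)))))) := by
    refine Tendsto.neg (tendsto_finsetSum _ fun m _ =>
      Tendsto.add (tendsto_finsetSum _ fun s _ => ?_) (tendsto_finsetSum _ fun s _ => ?_))
    · have := pin_lim h3 (hP m s).1 (hP m s).2 (hP m s).1 (hP m s).2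
      simp only [← pow_two] at this
      exact this
    · exact pin_lim h3 (hPP m s).1 (hPP m s).2 (hu s).1 (hu s).2
  refine le_of_tendsto' lim fun j => ?_
  have hs0 : (0 : ℝ) < 1 / ((j : ℝ) + 1) := by positivity
  generalize 1 / ((j : ℝ) + 1) = s0 at hs0 ⊢
  have e1 : ∀ m : Fin 3, ((∑ s, ∫ x, pin_S (pin_U s0) x * Pg (g m) (u s) x ^ 2) +
        ∑ s, ∫ x, pin_S (pin_U s0) x * (Pg (g m) (Pg (g m) (u s)) x * u s x)) =
      ∑ s, 1 / 2 * ∫ x, pin_S (pin_D (g m) (pin_D (g m) (pin_U s0))) x * u s x ^ 2 := by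
    intro m
    rw [← Finset.sum_add_distrib]
    exact Finset.sum_congr rfl fun s _ =>
      pin_id h1 h2 (hsc m).sm (pin_smU hs0) (hu s).1 (hu s).2
  rw [Finset.sum_congr rfl (fun m _ => e1 m), Finset.sum_comm]
  have e2 : ∀ s, -(∑ m : Fin 3, 1 / 2 * ∫ x, pin_S (pin_D (g m) (pin_D (g m) (pin_U s0))) x *
      u s x ^ 2) ≤ 210 * K ^ 2 / R ^ 2 * (∫ x, (∑ k, 1 / nr (x k)) * u s x ^ 2) +
        1 / 2 * ∫ x, (∑ k, mor s0 (x k)) * u s x ^ 2 := by
    intro s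
    have hcu := (hu s).1.continuous
    have i1 : ∀ m, Integrable (fun x => pin_S (pin_D (g m) (pin_D (g m) (pin_U s0))) x *
        u s x ^ 2) := by
      intro m
      have hc := (pin_smS (n := n) (pin_smD (hsc m).sm
        (pin_smD (hsc m).sm (pin_smU hs0)))).continuous
      refine (pin_ii (hc.mul hcu) hcu (hu s).2).congr (ae_of_all _ fun x => ?_)
      simp only [Pi.mul_apply]
      ring
    have i2 : Integrable (fun x : Cf n => (∑ k, 1 / nr (x k)) * u s x ^ 2) := by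
      refine (h3 n (u s) (u s) (hu s).1 (hu s).2 (hu s).1 (hu s).2).1.congr
        (ae_of_all _ fun x => ?_)
      simp only [att]
      ring
    have i3 : Integrable (fun x : Cf n => (∑ k, mor s0 (x k)) * u s x ^ 2) := by
      have hm : Continuous (fun x : Cf n => ∑ k, mor s0 (x k)) := by
        have hm1 : Continuous (mor s0) := by
          have : mor s0 = fun y => 15 / 2 * s0 ^ 4 * pin_f (pin_q s0 y) ^ 7 :=
            funext fun y => pin_mor hs0 y
          rw [this]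
          have := (pin_smf hs0).continuous
          fun_prop
        fun_prop
      refine (pin_ii (hm.mul hcu) hcu (hu s).2).congr (ae_of_all _ fun x => ?_)
      simp only [Pi.mul_apply]
      ring
    have l1 : -(∑ m : Fin 3, 1 / 2 * ∫ x, pin_S (pin_D (g m) (pin_D (g m) (pin_U s0))) x *
        u s x ^ 2) = ∫ x, -(∑ m : Fin 3, 1 / 2 *
          (pin_S (pin_D (g m) (pin_D (g m) (pin_U s0))) x * u s x ^ 2)) := by
      rw [integral_neg, integral_finsetSum _ (fun m _ => (i1 m).const_mul _)]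
      simp only [integral_const_mul]
    have l2 : 210 * K ^ 2 / R ^ 2 * (∫ x, (∑ k, 1 / nr (x k)) * u s x ^ 2) +
        1 / 2 * (∫ x, (∑ k, mor s0 (x k)) * u s x ^ 2) =
        ∫ x, (210 * K ^ 2 / R ^ 2 * ((∑ k, 1 / nr (x k)) * u s x ^ 2) +
          1 / 2 * ((∑ k, mor s0 (x k)) * u s x ^ 2)) := by
      rw [integral_add (i2.const_mul _) (i3.const_mul _), integral_const_mul,
        integral_const_mul]
    rw [l1, l2]
    refine integral_mono (integrable_finsetSum _ fun m _ => (i1 m).const_mul _).neg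
      ((i2.const_mul _).add (i3.const_mul _)) (fun x => ?_)
    simp only
    have hp : ∑ k, -(∑ m, 1 / 2 * pin_D (g m) (pin_D (g m) (pin_U s0)) (x k)) ≤
        ∑ k, (210 * K ^ 2 / R ^ 2 * (1 / nr (x k)) + 1 / 2 * mor s0 (x k)) :=
      Finset.sum_le_sum fun k _ => pin_pt hs0 hR hsc hin (x k)
    have q1 : -(∑ m : Fin 3, 1 / 2 *
        (pin_S (pin_D (g m) (pin_D (g m) (pin_U s0))) x * u s x ^ 2)) =
        (∑ k, -(∑ m, 1 / 2 * pin_D (g m) (pin_D (g m) (pin_U s0)) (x k))) * u s x ^ 2 := by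
      unfold pin_S
      rw [Finset.sum_neg_distrib, Finset.sum_comm, neg_mul, Finset.sum_mul]
      congr 1
      refine Finset.sum_congr rfl fun m _ => ?_
      rw [← Finset.mul_sum]
      ring
    have q2 : 210 * K ^ 2 / R ^ 2 * ((∑ k, 1 / nr (x k)) * u s x ^ 2) +
        1 / 2 * ((∑ k, mor s0 (x k)) * u s x ^ 2) =
        (∑ k, (210 * K ^ 2 / R ^ 2 * (1 / nr (x k)) + 1 / 2 * mor s0 (x k))) * u s x ^ 2 := by
      rw [Finset.sum_add_distrib, ← Finset.mul_sum, ← Finset.mul_sum]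
      ring
    rw [q1, q2]
    exact mul_le_mul_of_nonneg_right hp (by positivity)
  have e3 := hB s0 hs0
  unfold one at e3 ⊢
  rw [← Finset.sum_neg_distrib]
  calc _ ≤ ∑ s, (210 * K ^ 2 / R ^ 2 * (∫ x, (∑ k, 1 / nr (x k)) * u s x ^ 2) +
        1 / 2 * ∫ x, (∑ k, mor s0 (x k)) * u s x ^ 2) := Finset.sum_le_sum fun s _ => e2 s
    _ = 210 * K ^ 2 / R ^ 2 * (∑ s, ∫ x, (∑ k, 1 / nr (x k)) * u s x ^ 2) +
        1 / 2 * ∑ s, ∫ x, (∑ k, mor s0 (x k)) * u s x ^ 2 := by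
      rw [Finset.sum_add_distrib, ← Finset.mul_sum, ← Finset.mul_sum]
    _ ≤ _ := by linarith

end Pool.Agent.Helper95.PW
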